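import Pool.Agent.WAP.StmtsI

set_option autoImplicit false

/-!
# WAP, row APX: approximation by unimodular fractions
-/

namespace Pool.Agent.WAP.H35

open Pool.Agent.WAP

variable {F : Type} [NormedField F] [Algebra GaussianInt F] {ϖ : GaussianInt}

theorem pi_lt_one (hL : IsLoc F ϖ) : ‖algebraMap GaussianInt F ϖ‖ < 1 :=
  (hL.lt_one ϖ).mpr dvd_rfl

/-- norm `< 1` implies norm `≤ ‖ϖ‖` -/
theorem le_pi (hL : IsLoc F ϖ) (x : F) (hx : ‖x‖ < 1) : ‖x‖ ≤ ‖algebraMap GaussianInt F ϖ‖ := by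
  by_cases h0 : x = 0
  · rw [h0, norm_zero]
    exact norm_nonneg _
  · obtain ⟨n, hn⟩ := hL.val x h0
    have h1 := pi_lt_one hL
    have h2 := hL.uni
    rw [hn] at hx ⊢
    have hn1 : 1 ≤ n := by
      by_contra hcon
      have h3 : n ≤ 0 := by omega
      have h4 : (1 : ℝ) ≤ ‖algebraMap GaussianInt F ϖ‖ ^ n :=
        one_le_zpow_of_nonpos₀ h2 h1.le h3
      linarith
    calc ‖algebraMap GaussianInt F ϖ‖ ^ n ≤ ‖algebraMap GaussianInt F ϖ‖ ^ (1 : ℤ) :=
          zpow_le_zpow_right_of_le_one₀ h2 h1.le hn1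
      _ = ‖algebraMap GaussianInt F ϖ‖ := zpow_one _

/-- digits -/
theorem digits (hL : IsLoc F ϖ) (x : F) (hx : ‖x‖ ≤ 1) (n : ℕ) :
    ∃ c : GaussianInt, ‖x - algebraMap GaussianInt F c‖ ≤ ‖algebraMap GaussianInt F ϖ‖ ^ n := by
  have hu := hL.uni
  have hne : algebraMap GaussianInt F ϖ ≠ 0 := norm_pos_iff.mp hu
  induction n with
  | zero =>
    refine ⟨0, ?_⟩
    rw [map_zero, sub_zero, pow_zero]
    exact hx
  | succ n ih =>
    obtain ⟨c, hc⟩ := ih
    have hpn : 0 < ‖algebraMap GaussianInt F ϖ‖ ^ n := pow_pos hu n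
    have hne' : (algebraMap GaussianInt F ϖ) ^ n ≠ 0 := pow_ne_zero n hne
    set y : F := (x - algebraMap GaussianInt F c) / (algebraMap GaussianInt F ϖ) ^ n with hy
    have hy1 : ‖y‖ ≤ 1 := by
      rw [hy, norm_div, norm_pow]
      exact (div_le_one hpn).mpr hc
    obtain ⟨a, ha⟩ := hL.res y hy1
    have ha' := le_pi hL _ ha
    refine ⟨c + a * ϖ ^ n, ?_⟩
    have e : x - algebraMap GaussianInt F (c + a * ϖ ^ n) =
        (y - algebraMap GaussianInt F a) * (algebraMap GaussianInt F ϖ) ^ n := by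
      rw [map_add, map_mul, map_pow, sub_mul, hy, div_mul_cancel₀ _ hne']
      ring
    rw [e, norm_mul, norm_pow, pow_succ, mul_comm]
    exact mul_le_mul_of_nonneg_left ha' hpn.le

theorem approx (hL : IsLoc F ϖ) (x : F) (hx : ‖x‖ ≤ 1) (δ : ℝ) (hδ : 0 < δ) :
    ∃ c : GaussianInt, ‖x - algebraMap GaussianInt F c‖ < δ := by
  obtain ⟨n, hn⟩ := exists_pow_lt_of_lt_one hδ (pi_lt_one hL)
  obtain ⟨c, hc⟩ := digits hL x hx n
  exact ⟨c, lt_of_le_of_lt hc hn⟩

/-- **APX** -/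
theorem apx : ApxStmt := by
  intro F _ _ ϖ hL m1 ε hm hε
  have hu := hL.uni
  have hne : algebraMap GaussianInt F ϖ ≠ 0 := norm_pos_iff.mp hu
  have hmpos : 0 < ‖m1‖ := norm_pos_iff.mpr hm
  obtain ⟨k, hk⟩ := exists_pow_lt_of_lt_one (inv_pos.mpr hmpos) (pi_lt_one hL)
  have hkp : 0 < ‖algebraMap GaussianInt F ϖ‖ ^ k := pow_pos hu k
  have hknz : (algebraMap GaussianInt F ϖ) ^ k ≠ 0 := pow_ne_zero k hne
  set x : F := (algebraMap GaussianInt F ϖ) ^ k * m1 with hx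
  have hx1 : ‖x‖ ≤ 1 := by
    rw [hx, norm_mul, norm_pow]
    have h1 : ‖algebraMap GaussianInt F ϖ‖ ^ k * ‖m1‖ ≤ ‖m1‖⁻¹ * ‖m1‖ :=
      mul_le_mul_of_nonneg_right hk.le hmpos.le
    rwa [inv_mul_cancel₀ hmpos.ne'] at h1
  have hx0 : x ≠ 0 := mul_ne_zero hknz hm
  have hxpos : 0 < ‖x‖ := norm_pos_iff.mpr hx0
  obtain ⟨c0, hc0⟩ := approx hL x hx1 (min (ε * ‖algebraMap GaussianInt F ϖ‖ ^ k) ‖x‖)
    (lt_min (mul_pos hε hkp) hxpos)
  have hc1 := lt_of_lt_of_le hc0 (min_le_left _ _)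
  have hc2 := lt_of_lt_of_le hc0 (min_le_right _ _)
  have hc0ne : c0 ≠ 0 := by
    intro h
    rw [h, map_zero, sub_zero] at hc2
    exact lt_irrefl _ hc2
  set a0 : GaussianInt := ϖ ^ k with ha0
  set g : GaussianInt := EuclideanDomain.gcd a0 c0 with hg
  obtain ⟨a, ha⟩ : g ∣ a0 := EuclideanDomain.gcd_dvd_left a0 c0
  obtain ⟨c, hc⟩ : g ∣ c0 := EuclideanDomain.gcd_dvd_right a0 c0
  have hbez : g = a0 * EuclideanDomain.gcdA a0 c0 + c0 * EuclideanDomain.gcdB a0 c0 :=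
    EuclideanDomain.gcd_eq_gcd_ab a0 c0
  have hg0 : g ≠ 0 := by
    intro h
    rw [h, zero_mul] at hc
    exact hc0ne hc
  have hcne : c ≠ 0 := by
    intro h
    rw [h, mul_zero] at hc
    exact hc0ne hc
  have hA0 : algebraMap GaussianInt F a0 ≠ 0 := by
    rw [ha0, map_pow]
    exact hknz
  have hA0' : algebraMap GaussianInt F g * algebraMap GaussianInt F a ≠ 0 := by
    rw [← map_mul, ← ha]
    exact hA0
  have hgF : algebraMap GaussianInt F g ≠ 0 := left_ne_zero_of_mul hA0'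
  have haF : algebraMap GaussianInt F a ≠ 0 := right_ne_zero_of_mul hA0'
  have hane : a ≠ 0 := by
    intro h
    rw [h, map_zero] at haF
    exact haF rfl
  refine ⟨a, -EuclideanDomain.gcdB a0 c0, c, EuclideanDomain.gcdA a0 c0, ?_, hane, hcne, ?_⟩
  · apply mul_left_cancel₀ hg0
    rw [mul_one]
    conv_rhs => rw [hbez]
    set A := EuclideanDomain.gcdA a0 c0
    set B := EuclideanDomain.gcdB a0 c0
    have e1 : g * (a * A - -B * c) = (g * a) * A + (g * c) * B := by ring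
    rw [e1, ← ha, ← hc]
  · have e1 : algebraMap GaussianInt F c / algebraMap GaussianInt F a =
        algebraMap GaussianInt F c0 / algebraMap GaussianInt F a0 := by
      rw [hc, ha, map_mul, map_mul, mul_div_mul_left _ _ hgF]
    have e2 : algebraMap GaussianInt F c0 / algebraMap GaussianInt F a0 - m1 =
        -((x - algebraMap GaussianInt F c0) / (algebraMap GaussianInt F ϖ) ^ k) := by
      rw [ha0, map_pow, hx]
      field_simp
      ring
    rw [e1, e2, norm_neg, norm_div, norm_pow]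
    rwa [div_lt_iff₀ hkp]

end Pool.Agent.WAP.H35
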