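import Pool.Agent.WAP.StmtsP2

set_option autoImplicit false

/-!
# WAP, row BAT: the base case at the place 2
-/

namespace Pool.Agent.WAP.H35

open Pool.Agent.WAP Pool.Agent.WAP.P2
open Classical

section basic

variable {F : Type} [Field F]

theorem cub_fac (x : F) : cub x = x * (x - 1) * (x + 1) := by
  unfold cub
  ring

theorem cub_ne {x : F} (h : cub x ≠ 0) : x ≠ 0 ∧ x ≠ 1 ∧ x ≠ -1 := by
  rw [cub_fac] at h
  have h1 := left_ne_zero_of_mul h
  have h2 := right_ne_zero_of_mul h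
  have h3 := left_ne_zero_of_mul h1
  have h4 := right_ne_zero_of_mul h1
  refine ⟨h3, fun h5 => h4 (by rw [h5, sub_self]), fun h5 => h2 (by rw [h5, neg_add_cancel])⟩

theorem onU_cub {z : F × F × F} (h : OnU z) : cub z.1 ≠ 0 ∧ cub z.2.1 ≠ 0 := by
  obtain ⟨h1, h2⟩ := h
  have h3 : cub z.1 * cub z.2.1 ≠ 0 := by
    rw [← h1]
    exact pow_ne_zero 2 h2
  exact ⟨left_ne_zero_of_mul h3, right_ne_zero_of_mul h3⟩

theorem onU_sw {z : F × F × F} (h : OnU z) : OnU (swf z) := by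
  obtain ⟨h1, h2⟩ := h
  refine ⟨?_, h2⟩
  show z.2.2 ^ 2 = cub z.2.1 * cub z.1
  rw [h1, mul_comm]

variable [Algebra GaussianInt F]

theorem run_onU : ∀ (L : List Letter) (z w : F × F × F), Run L z w → OnU w
  | [], z, w, h => by
    obtain ⟨h1, h2⟩ := h
    rw [h2]
    exact h1
  | _ :: L, _, w, h => by
    obtain ⟨z1, _, h2⟩ := h
    exact run_onU L z1 w h2

theorem step_onU {l : Letter} {z w : F × F × F} (h : Step l z w) : OnU z ∧ OnU w :=
  ⟨h.1, h.2.1⟩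

theorem run_append {l : Letter} {w w' : F × F × F} (hs : Step l w w') :
    ∀ (L : List Letter) (z : F × F × F), Run L z w → Run (L ++ [l]) z w'
  | [], z, h => by
    obtain ⟨_, h2⟩ := h
    subst h2
    exact ⟨w', hs, (step_onU hs).2, rfl⟩
  | _ :: L, z, h => by
    obtain ⟨z1, h1, h2⟩ := h
    exact ⟨z1, h1, run_append hs L z1 h2⟩

theorem sm_one' {d : F} (P : Pt d) : sm (1 : GaussianInt) P = P := by
  show (1 : GaussianInt).re • P + (1 : GaussianInt).im • iPt P = P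
  have h1 : (1 : GaussianInt).re = 1 := rfl
  have h2 : (1 : GaussianInt).im = 0 := rfl
  rw [h1, h2, one_smul, zero_smul, add_zero]

theorem sm_zero' {d : F} (P : Pt d) : sm (0 : GaussianInt) P = 0 := by
  show (0 : GaussianInt).re • P + (0 : GaussianInt).im • iPt P = 0
  have h1 : (0 : GaussianInt).re = 0 := rfl
  have h2 : (0 : GaussianInt).im = 0 := rfl
  rw [h1, h2, zero_smul, zero_smul, add_zero]

end basic

section main

variable {F : Type} [NormedField F] [Algebra GaussianInt F] {v : F → ℤ}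

/-- types are constant in a neighbourhood -/
theorem nbhd (hTyo : TyoStmt) (hv : IsV F v) {V : Set (F × F × F)} (hV : IsOpen V)
    {z0 : F × F × F} (h0 : z0 ∈ V) (hU : OnU z0) :
    ∃ V' : Set (F × F × F), IsOpen V' ∧ z0 ∈ V' ∧ V' ⊆ V ∧
      ∀ z ∈ V', (TypA v z.1 ↔ TypA v z0.1) ∧ (TypA v z.2.1 ↔ TypA v z0.2.1) := by
  obtain ⟨c1, c2⟩ := onU_cub hU
  obtain ⟨a1, a2, a3⟩ := cub_ne c1
  obtain ⟨b1, b2, b3⟩ := cub_ne c2
  obtain ⟨ε1, hε1, k1⟩ := hTyo F v hv z0.1 a1 a2 a3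
  obtain ⟨ε2, hε2, k2⟩ := hTyo F v hv z0.2.1 b1 b2 b3
  refine ⟨V ∩ ({z | ‖z.1 - z0.1‖ < ε1} ∩ {z | ‖z.2.1 - z0.2.1‖ < ε2}), ?_, ?_, ?_, ?_⟩
  · refine hV.inter (IsOpen.inter ?_ ?_)
    · exact isOpen_lt ((continuous_fst.sub continuous_const).norm) continuous_const
    · exact isOpen_lt (((continuous_fst.comp continuous_snd).sub continuous_const).norm)
        continuous_const
  · refine ⟨h0, ?_, ?_⟩
    · show ‖z0.1 - z0.1‖ < ε1
      rw [sub_self, norm_zero]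
      exact hε1
    · show ‖z0.2.1 - z0.2.1‖ < ε2
      rw [sub_self, norm_zero]
      exact hε2
  · exact Set.inter_subset_left
  · rintro z ⟨_, hz1, hz2⟩
    exact ⟨(k1 z.1 hz1).2.2.2.1, (k2 z.2.1 hz2).2.2.2.1⟩

/-- case 2: `t` of type A, `x` not -/
theorem case2 (hTyo : TyoStmt) (hIdn : IdnStmt) (hRho : RhoStmt) (hEvn : EvnStmt) (hBs1 : Bs1Stmt)
    (hInv : InvStmt) (hDen : DenStmt) (hLC : IsLC F) (hv : IsV F v) {V : Set (F × F × F)}
    (hV : IsOpen V) {z0 : F × F × F} (h0 : z0 ∈ V) (hU : OnU z0) (hx : ¬ TypA v z0.1)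
    (ht : TypA v z0.2.1) :
    ∃ (L : List Letter) (u w : F × F × F), Reg2 u ∧ w ∈ V ∧ Run L u w := by
  obtain ⟨V', hV', h0', hsub, hty⟩ := nbhd hTyo hv hV h0 hU
  obtain ⟨z, hz, z', hs⟩ := hDen F hLC .io trivial V' hV' ⟨z0, h0', hU⟩
  obtain ⟨hzU, hzU'⟩ := step_onU hs
  obtain ⟨t1, t2⟩ := hty z hz
  have hx' : ¬ TypA v z.1 := fun h => hx (t1.mp h)
  have ht' : TypA v z.2.1 := t2.mpr ht
  obtain ⟨c1, c2⟩ := onU_cub hzU
  obtain ⟨a1, a2, a3⟩ := cub_ne c1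
  obtain ⟨e1, e2⟩ := hEvn F v hv
  have hsum := e2 z hzU
  obtain ⟨_, hv2⟩ := e1 z.2.1 ht'
  rw [hv2] at hsum
  have heven : Even (v (cub z.1)) := by
    rcases hsum with ⟨r, hr⟩
    exact ⟨r - 1, by omega⟩
  obtain ⟨hD, hodd, hne⟩ := hRho F v hv z.1 z.2.1 a1 a2 a3 hx' ht' heven
  obtain ⟨i1, i2⟩ := hIdn F z.1 z.2.1 hD
  obtain ⟨_, _, _, hz'⟩ := hs
  have k1 : cub z'.1 = (-4 * (z.1 + z.2.1 + 1) * (z.2.1 - 2 * z.1 + 1) * (2 * z.2.1 - z.1 - 1) /
      (3 * z.1 * z.2.1 - z.1 - z.2.1 - 1) ^ 3) * cub z.1 := by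
    rw [hz']
    exact i1
  have k2 : cub z'.2.1 = (-4 * (z.1 + z.2.1 + 1) * (z.2.1 - 2 * z.1 + 1) * (2 * z.2.1 - z.1 - 1) /
      (3 * z.1 * z.2.1 - z.1 - z.2.1 - 1) ^ 3) * cub z.2.1 := by
    rw [hz']
    exact i2
  have n1 : ¬ TypA v z'.1 := by
    intro h
    obtain ⟨_, h2⟩ := e1 z'.1 h
    rw [k1, hv.mul _ _ hne c1] at h2
    obtain ⟨r, hr⟩ := hodd
    obtain ⟨q, hq⟩ := heven
    omega
  have n2 : ¬ TypA v z'.2.1 := by
    intro h
    obtain ⟨_, h2⟩ := e1 z'.2.1 h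
    rw [k2, hv.mul _ _ hne c2, hv2] at h2
    obtain ⟨r, hr⟩ := hodd
    omega
  obtain ⟨L, u, hu, hrun⟩ := hBs1 F v hv z' hzU' n1 n2
  have hback : Step Letter.io z' z := by
    have h3 : Step Letter.io z z' := ⟨hzU, hzU', by assumption, hz'⟩
    exact hInv F hv.two_ne .io z z' h3
  exact ⟨L ++ [.io], u, z, hu, hsub hz, run_append hback L u hrun⟩

/-- case 3: `x` of type A, `t` not -/
theorem case3 (hTyo : TyoStmt) (hIdn : IdnStmt) (hRho : RhoStmt) (hEvn : EvnStmt) (hBs1 : Bs1Stmt)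
    (hInv : InvStmt) (hDen : DenStmt) (hLC : IsLC F) (hv : IsV F v) {V : Set (F × F × F)}
    (hV : IsOpen V) {z0 : F × F × F} (h0 : z0 ∈ V) (hU : OnU z0) (hx : TypA v z0.1)
    (ht : ¬ TypA v z0.2.1) :
    ∃ (L : List Letter) (u w : F × F × F), Reg2 u ∧ w ∈ V ∧ Run L u w := by
  have hcont : Continuous (swf : F × F × F → F × F × F) := by
    unfold swf
    exact (continuous_fst.comp continuous_snd).prodMk
      (continuous_fst.prodMk (continuous_snd.comp continuous_snd))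
  have hV1 : IsOpen (swf ⁻¹' V) := hV.preimage hcont
  have h1 : swf z0 ∈ swf ⁻¹' V := h0
  obtain ⟨L, u, w, hu, hw, hrun⟩ := case2 hTyo hIdn hRho hEvn hBs1 hInv hDen hLC hv hV1 h1
    (onU_sw hU) ht hx
  have hwU := run_onU L u w hrun
  have hs : Step Letter.sw w (swf w) := ⟨hwU, onU_sw hwU, rfl⟩
  exact ⟨L ++ [.sw], u, swf w, hu, hw, run_append hs L u hrun⟩

end main

/-- **BAT** -/
theorem bat (hVex : VexStmt) (hTyo : TyoStmt) (hIdn : IdnStmt) (hRho : RhoStmt) (hEvn : EvnStmt)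
    (hAas : AasStmt) (hBs1 : Bs1Stmt) (hFre : FreStmt) (hInv : InvStmt)
    (hCon : ConStmt) (hDen : DenStmt) : BatStmt := by
  intro F _ _ ϖ hL h2 V hV hne
  obtain ⟨z0, h0, hU⟩ := hne
  obtain ⟨v, hv⟩ := hVex F ϖ hL h2
  have hLC : IsLC F := Or.inl ⟨ϖ, hL⟩
  by_cases hx : TypA v z0.1
  · by_cases ht : TypA v z0.2.1
    · obtain ⟨V', hV', h0', hsub, hty⟩ := nbhd hTyo hv hV h0 hU
      have hok : (Letter.act 1 0 1 1).ok := by
        show (1 : GaussianInt) * 1 - 0 * 1 = 1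
        ring
      obtain ⟨z, hz, z', hs⟩ := hDen F hLC (.act 1 0 1 1) hok V' hV' ⟨z0, h0', hU⟩
      obtain ⟨hzU, hzU'⟩ := step_onU hs
      obtain ⟨t1, t2⟩ := hty z hz
      have hx' : TypA v z.1 := t1.mpr hx
      have ht' : TypA v z.2.1 := t2.mpr ht
      obtain ⟨hd, hk, hP, hQ⟩ := hFre F hv.two_ne z hzU
      have ez' : z' = kum (cub z.1) (frP z) (frP z + frQ z) := by
        have h3 : z' = kum (cub z.1) (sm 1 (frP z) + sm 0 (frQ z)) (sm 1 (frP z) + sm 1 (frQ z)) :=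
          hs.2.2.2
        rw [h3, sm_one', sm_one', sm_zero', add_zero]
      have ez1 : z.1 = cX (frP z) / cub z.1 := by
        have h3 := congrArg Prod.fst hk
        exact h3.symm
      have ez2 : z.2.1 = cX (frQ z) / cub z.1 := by
        have h3 := congrArg (fun p : F × F × F => p.2.1) hk
        exact h3.symm
      have n1 : TypA v z'.1 := by
        rw [ez']
        show TypA v (cX (frP z) / cub z.1)
        rw [← ez1]
        exact hx'
      have n2 : ¬ TypA v z'.2.1 := by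
        rw [ez']
        show ¬ TypA v (cX (frP z + frQ z) / cub z.1)
        refine hAas F v hv (cub z.1) (frP z) (frQ z) hd hP hQ ?_ ?_
        · rw [← ez1]
          exact hx'
        · rw [← ez2]
          exact ht'
      have hback : Step (Letter.act 1 0 1 1).inv z' z := hInv F hv.two_ne _ z z' hs
      obtain ⟨O, hO, hzO, hO2⟩ := hCon F hLC _ z' z hback V' hV' hz
      obtain ⟨L, u, w, hu, hw, hrun⟩ := case3 hTyo hIdn hRho hEvn hBs1 hInv hDen hLC hv hO hzO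
        hzU' n1 n2
      obtain ⟨z2, hz2, hs2⟩ := hO2 w hw (run_onU L u w hrun)
      exact ⟨L ++ [(Letter.act 1 0 1 1).inv], u, z2, hu, hsub hz2, run_append hs2 L u hrun⟩
    · exact case3 hTyo hIdn hRho hEvn hBs1 hInv hDen hLC hv hV h0 hU hx ht
  · by_cases ht : TypA v z0.2.1
    · exact case2 hTyo hIdn hRho hEvn hBs1 hInv hDen hLC hv hV h0 hU hx ht
    · obtain ⟨L, u, hu, hrun⟩ := hBs1 F v hv z0 hU hx ht
      exact ⟨L, u, z0, hu, h0, hrun⟩

end Pool.Agent.WAP.H35
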