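import Pool.Agent.WAP.StmtsT
import Pool.Agent.Helper32_WAP.Add

set_option autoImplicit false

/-!
# WAP, row INJ: multiplication by `a ≠ 0` is injective near the origin
-/

namespace Pool.Agent.WAP.H35

open Pool.Agent.WAP Pool.Agent.WAP.H32
open Classical

variable {F : Type} [NormedField F] [Algebra GaussianInt F] {d : F}

omit [Algebra GaussianInt F] in
theorem big_neg {N : ℝ} {p : Pt d} (h : Big N p) : Big N (-p) := by
  rcases h with h | h
  · left
    rw [h, neg_zero]
  · right
    rw [cX_neg]
    exact h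

omit [Algebra GaussianInt F] in
theorem big_mono {N N' : ℝ} (hN : N ≤ N') {p : Pt d} (h : Big N' p) : Big N p := by
  rcases h with h | h
  · exact Or.inl h
  · exact Or.inr (lt_of_le_of_lt hN h)

omit [Algebra GaussianInt F] in
/-- the parameter of a point near the origin is not zero -/
theorem cz_ne (hd : d ≠ 0) {p : Pt d} (hp : p ≠ 0) (h : Big 1 p) : cz p ≠ 0 := by
  rcases h with h | h
  · exact absurd h hp
  have hX : cX p ≠ 0 := by
    intro h0
    rw [h0, zero_div, norm_zero] at h
    linarith
  have hY : cY p ≠ 0 := by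
    intro h0
    have e := eqn (P := p)
    rw [h0] at e
    have e2 : cX p * ((cX p - d) * (cX p + d)) = 0 := by linear_combination -e
    rcases mul_eq_zero.mp e2 with h1 | h1
    · exact hX h1
    · rcases mul_eq_zero.mp h1 with h2 | h2
      · have h3 : cX p = d := by linear_combination h2
        rw [h3, div_self hd, norm_one] at h
        exact lt_irrefl _ h
      · have h3 : cX p = -d := by linear_combination h2
        rw [h3, neg_div, div_self hd, norm_neg, norm_one] at h
        exact lt_irrefl _ h
  exact div_ne_zero hX hY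

/-- **INJ** -/
theorem inj (hZsm : ZsmStmt) (hAdn : AdnStmt) : InjStmt := by
  intro F _ _ hG d hd a ha
  have haF : algebraMap GaussianInt F a ≠ 0 := hG.1 a ha
  have hapos : 0 < ‖algebraMap GaussianInt F a‖ := norm_pos_iff.mpr haF
  obtain ⟨N1, hN1⟩ := hZsm F hG d hd a (‖algebraMap GaussianInt F a‖ / 2) (by positivity)
  obtain ⟨N, hN⟩ := hAdn F hG d hd (max N1 1)
  refine ⟨N, ?_⟩
  intro p q hp hq hpq
  have h1 : Big (max N1 1) (p + -q) := hN p (-q) hp (big_neg hq)
  by_contra hne
  have hr : p + -q ≠ 0 := by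
    intro h0
    apply hne
    exact eq_of_sub_eq_zero (by rw [sub_eq_add_neg]; exact h0)
  have hz : cz (p + -q) ≠ 0 := cz_ne hd hr (big_mono (le_max_right _ _) h1)
  have h2 := hN1 (p + -q) (big_mono (le_max_left _ _) h1)
  have h3 : sm a (p + -q) = 0 := by
    have e1 : sm a (p + -q) = sm a p + sm a (-q) := gsm_add _ a p (-q)
    have e2 : sm a q + sm a (-q) = 0 := by
      have e3 : sm a (q + -q) = sm a q + sm a (-q) := gsm_add _ a q (-q)
      rw [← e3, add_neg_cancel]
      show a.re • (0 : Pt d) + a.im • _ = 0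
      rw [smul_zero, map_zero, smul_zero, add_zero]
    rw [e1, hpq]
    exact e2
  have hc0 : cz (0 : Pt d) = 0 := by
    show (0 : F) / 0 = 0
    simp
  rw [h3, hc0, zero_sub, norm_neg, norm_mul] at h2
  have h4 : 0 < ‖cz (p + -q)‖ := norm_pos_iff.mpr hz
  nlinarith

end Pool.Agent.WAP.H35
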